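import Pool.Agent.Helper60.HB.Skel

set_option autoImplicit false

/-! # Linear forms in logarithms: module PARM (choice of the parameters) -/

namespace Pool.Agent.Helper83.HB

open Real

theorem parm_dy (y : ℝ) (hy : 1 ≤ y) : ∃ J : ℕ, y ≤ 2 ^ J ∧ (2 : ℝ) ^ J ≤ 2 * y := by
  obtain ⟨m, h1, h2⟩ := exists_nat_pow_near hy (by norm_num : (1 : ℝ) < 2)
  refine ⟨m + 1, h2.le, ?_⟩
  rw [pow_succ]
  linarith

theorem parm_pw {x : ℝ} (hx : 0 < x) (m : ℕ) : x ^ m = exp (m * log x) := by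
  rw [mul_comm, ← Real.rpow_def_of_pos hx, Real.rpow_natCast]

theorem parm_log3 : (1 : ℝ) ≤ log 3 := by
  rw [Real.le_log_iff_exp_le (by norm_num)]
  exact Real.exp_one_lt_d9.le.trans (by norm_num)

theorem parm_log4 : log 4 ≤ 2 := by
  have h : log 4 = 2 * log 2 := by
    rw [show (4 : ℝ) = 2 ^ 2 by norm_num, Real.log_pow]
    norm_num
  have h2 := Real.log_two_lt_d9
  rw [h]
  linarith

theorem parm_log7 : log 7 ≤ 2 := by
  rw [Real.log_le_iff_le_exp (by norm_num)]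
  have h := Real.exp_one_gt_d9
  have h2 : exp 2 = exp 1 * exp 1 := by
    rw [← Real.exp_add]
    norm_num
  rw [h2]
  nlinarith [h]

/-- the first term -/
theorem parm_first (D1 X u t g K : ℝ) (G : ℕ) (hX : 0 < X) (hG : (G : ℝ) = g) (hu : 1 ≤ u)
    (ht : 0 ≤ t) (hD1 : 1 ≤ D1) (hK : K = 7 * D1 + 11) (hlX : log X ≤ 2 + 3 / 2 * t + 4 * u)
    (hg : K * t + 2 * K * u ≤ g) :
    (1 / 3 : ℝ) ^ G * (X * exp (7 * u)) ≤ exp (-D1 * (log X + 3 * u)) / 4 := by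
  have h3 := parm_log3
  have h4 := parm_log4
  have e1 : (1 / 3 : ℝ) ^ G = exp (-(g * log 3)) := by
    rw [one_div, inv_pow, Real.exp_neg, parm_pw (by norm_num) G, hG]
  have e2 : exp (-D1 * (log X + 3 * u)) / 4 = exp (-D1 * (log X + 3 * u) - log 4) := by
    rw [Real.exp_sub, Real.exp_log (by norm_num)]
  have e3 : X = exp (log X) := (Real.exp_log hX).symm
  have e4 : (1 / 3 : ℝ) ^ G * (X * exp (7 * u)) = exp (-(g * log 3) + (log X + 7 * u)) := by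
    rw [e1, Real.exp_add, Real.exp_add, ← e3]
  rw [e4, e2, Real.exp_le_exp]
  have hg0 : 0 ≤ g := by
    have : 0 ≤ K * t + 2 * K * u := by
      rw [hK]; positivity
    linarith
  have h5 : g ≤ g * log 3 := le_mul_of_one_le_right hg0 h3
  have h6 : (D1 + 1) * log X ≤ (D1 + 1) * (2 + 3 / 2 * t + 4 * u) :=
    mul_le_mul_of_nonneg_left hlX (by linarith)
  have h7 : 2 + (D1 + 1) * (2 + 3 / 2 * t + 4 * u) + (3 * D1 + 7) * u ≤ K * t + 2 * K * u := by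
    rw [hK]
    have a1 : 0 ≤ D1 * t := by positivity
    have a2 : 0 ≤ D1 * (u - 1) := mul_nonneg (by linarith) (by linarith)
    have a3 : 0 ≤ D1 * u := mul_nonneg (by linarith) (by linarith)
    nlinarith [a1, a2, a3, ht, hu]
  nlinarith [h4, h5, h6, h7, hg]

/-- the second term -/
theorem parm_second (D1 X u t g a N P Z V Lam CW : ℝ) (G τ : ℕ) (hN : 1 ≤ N) (hP : 0 < P)
    (hZ : 1 ≤ Z) (hV : 0 < V) (hG : (G : ℝ) = g) (hLam : 0 ≤ Lam) (hL : Lam ≤ exp (-CW))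
    (hlV : log V ≤ a) (hg0 : 0 ≤ g)
    (hfin : 3 + (g + log N + log P + (2 * τ + 1) * log Z + τ + u + g * a) + D1 * (log X + 3 * u) ≤ CW) :
    Lam * (2 * (G : ℝ) * (N * P * Z ^ (2 * τ + 1) * τ * exp u) * V ^ G) ≤
      exp (-D1 * (log X + 3 * u)) / 4 := by
  have h4 := parm_log4
  have e2 : exp (-D1 * (log X + 3 * u)) / 4 = exp (-D1 * (log X + 3 * u) - log 4) := by
    rw [Real.exp_sub, Real.exp_log (by norm_num)]
  have f1 : (2 : ℝ) ≤ exp 1 := by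
    have := Real.add_one_le_exp (1 : ℝ)
    linarith
  have f2 : (G : ℝ) ≤ exp g := by
    have := Real.add_one_le_exp g
    linarith
  have f3 : N = exp (log N) := (Real.exp_log (by linarith)).symm
  have f4 : P = exp (log P) := (Real.exp_log hP).symm
  have f5 : Z ^ (2 * τ + 1) = exp ((2 * τ + 1) * log Z) := by
    rw [parm_pw (by linarith)]
    push_cast
    rfl
  have f6 : (τ : ℝ) ≤ exp τ := by
    have := Real.add_one_le_exp (τ : ℝ)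
    linarith
  have f7 : V ^ G ≤ exp (g * a) := by
    rw [parm_pw hV, hG, Real.exp_le_exp]
    exact mul_le_mul_of_nonneg_left hlV hg0
  have h8 : Lam * (2 * (G : ℝ) * (N * P * Z ^ (2 * τ + 1) * τ * exp u) * V ^ G) ≤
      exp (-CW) * (exp 1 * exp g * (exp (log N) * exp (log P) * exp ((2 * τ + 1) * log Z) * exp τ * exp u) *
        exp (g * a)) := by
    rw [f5, ← f3, ← f4]
    have hN0 : 0 ≤ N := by linarith
    have hP0 : 0 ≤ P := hP.le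
    gcongr
  have h9 : exp (-CW) * (exp 1 * exp g * (exp (log N) * exp (log P) * exp ((2 * τ + 1) * log Z) * exp τ * exp u) *
        exp (g * a)) = exp (-CW + (1 + g + (log N + log P + (2 * τ + 1) * log Z + τ + u) + g * a)) := by
    simp only [Real.exp_add]
  rw [h9] at h8
  refine h8.trans ?_
  rw [e2, Real.exp_le_exp]
  linarith

/-- monotonicity: pieces of the exponent -/
theorem parm_sum (n C1 S1 T1 A1 A2 D1 C W l g u t lN lP lX lZ τ T0 : ℝ) (hW : 1 ≤ W)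
    (hD1 : 1 ≤ D1) (hA2 : 0 ≤ A2) (hl : 1 ≤ l) (hg0 : 0 ≤ g) (hlZ : 1 ≤ lZ) (hT0 : 1 ≤ T0)
    (ht : t = T0 * lZ) (hu : u ≤ n * C1 * S1 * W) (htW : t ≤ T1 * A1 * W) (hgW : g * l ≤ S1 * T1 * W)
    (hlN : lN ≤ u / 2) (hlP : lP ≤ 2 + u / 2 + t + 3 * u) (hτ : τ ≤ T0 / 2)
    (hlX : lX ≤ 2 + 3 / 2 * t + 4 * u)
    (hC : C = 5 + S1 * T1 + 5 * n * C1 * S1 + 4 * T1 * A1 + S1 * T1 * A2 +
      D1 * (2 + 2 * T1 * A1 + 7 * n * C1 * S1)) :
    3 + (g + lN + lP + (2 * τ + 1) * lZ + τ + u + g * (A2 * l)) + D1 * (lX + 3 * u) ≤ C * W := by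
  have hT0t : T0 ≤ t := by
    rw [ht]
    exact le_mul_of_one_le_right (by linarith) hlZ
  have h1 : (2 * τ + 1) * lZ ≤ 2 * t := by
    have : (2 * τ + 1) * lZ ≤ (T0 + 1) * lZ := mul_le_mul_of_nonneg_right (by linarith) (by linarith)
    have h2 : lZ ≤ T0 * lZ := le_mul_of_one_le_left (by linarith) hT0
    rw [ht]
    nlinarith [this, h2]
  have h2 : g ≤ g * l := le_mul_of_one_le_right hg0 hl
  have h3 : g * (A2 * l) ≤ A2 * (S1 * T1 * W) := by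
    have : g * (A2 * l) = A2 * (g * l) := by ring
    rw [this]
    exact mul_le_mul_of_nonneg_left hgW hA2
  have h4 : D1 * (lX + 3 * u) ≤ D1 * (2 * W + 2 * (T1 * A1 * W) + 7 * (n * C1 * S1 * W)) := by
    apply mul_le_mul_of_nonneg_left _ (by linarith)
    have ht0 : 0 ≤ t := by linarith
    nlinarith [hlX, hu, htW, hW, ht0]
  have ht0 : 0 ≤ t := by linarith
  rw [hC]
  have h5 : 3 + (g + lN + lP + (2 * τ + 1) * lZ + τ + u + g * (A2 * l)) ≤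
      5 * W + S1 * T1 * W + 5 * (n * C1 * S1 * W) + 4 * (T1 * A1 * W) + A2 * (S1 * T1 * W) := by
    nlinarith [h1, h2, h3, hlN, hlP, hτ, hT0t, hu, htW, hgW, hW, ht0]
  nlinarith [h4, h5]

theorem parm_m1 {x y : ℝ} (hx : 1 ≤ x) (hy : 1 ≤ y) : 1 ≤ x * y :=
  one_le_mul_of_one_le_of_one_le hx hy

theorem parm_tau (c0 a b T : ℝ) (ha : 1 ≤ a) (hb : 0 ≤ b) (hc0 : 0 ≤ c0) (hT : a * b * 2 = T) :
    c0 * b ≤ c0 * T / 2 := by
  have h1 : c0 * b ≤ a * (c0 * b) := le_mul_of_one_le_left (mul_nonneg hc0 hb) ha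
  rw [← hT]
  linarith

theorem parm_g (K n Lr lZ T0 Sr : ℝ) (hT0 : 0 ≤ T0) (hSr : 0 ≤ Sr) (h1 : 8 * K * lZ ≤ Sr)
    (h2 : 16 * K * n * Lr ≤ T0) : K * (T0 * lZ) + 2 * K * (n * Lr * Sr) ≤ Sr * T0 / 4 := by
  have h3 : 8 * K * lZ * T0 ≤ Sr * T0 := mul_le_mul_of_nonneg_right h1 hT0
  have h4 : Sr * (16 * K * n * Lr) ≤ Sr * T0 := mul_le_mul_of_nonneg_left h2 hSr
  linarith

theorem parm_V (J Js : ℕ) (Lr c S1 l Sr C1 Om A2 : ℝ) (hJ : J ≤ Js) (hJ2 : (2 : ℝ) ^ Js ≤ 2 * (Lr / c))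
    (hc : 0 < c) (hSr : 0 < Sr) (hS : Sr ≤ S1 * l) (hLr : Lr = C1 * Om * l) (hC1 : 1 ≤ C1) (hS1 : 1 ≤ S1)
    (hOm : 1 ≤ Om) (hl : 1 ≤ l) (hlOm : log Om ≤ l - 1) (hll : log l ≤ l - 1)
    (hA2 : A2 = log (16 * C1 * S1 / c) + 3) (hA2' : 0 ≤ log (16 * C1 * S1 / c)) :
    log (8 * (2 ^ J * Sr)) ≤ A2 * l := by
  have h1 : (2 : ℝ) ^ J ≤ 2 ^ Js := pow_le_pow_right₀ (by norm_num) hJ
  have hLr0 : 0 ≤ Lr := by
    rw [hLr]
    positivity
  have h2 : 8 * (2 ^ J * Sr) ≤ 16 * C1 * S1 / c * Om * (l * l) := by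
    have h3 : (2 : ℝ) ^ J * Sr ≤ 2 * (Lr / c) * (S1 * l) := by
      have h5 : (2 : ℝ) ^ J ≤ 2 * (Lr / c) := h1.trans hJ2
      have h4 : 0 ≤ 2 * (Lr / c) := by positivity
      exact mul_le_mul h5 hS hSr.le h4
    have h4 : 8 * (2 * (Lr / c) * (S1 * l)) = 16 * C1 * S1 / c * Om * (l * l) := by
      rw [hLr]
      ring
    linarith
  have hV : 0 < 8 * (2 ^ J * Sr) := by positivity
  have h3 := Real.log_le_log hV h2
  have e1 : log (16 * C1 * S1 / c * Om * (l * l)) = log (16 * C1 * S1 / c) + log Om + (log l + log l) := by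
    have p1 : 16 * C1 * S1 / c ≠ 0 := by positivity
    have p2 : Om ≠ 0 := by positivity
    have p3 : l ≠ 0 := by positivity
    rw [Real.log_mul (mul_ne_zero p1 p2) (mul_ne_zero p3 p3), Real.log_mul p1 p2, Real.log_mul p3 p3]
  rw [e1] at h3
  rw [hA2]
  have h4 : log (16 * C1 * S1 / c) ≤ log (16 * C1 * S1 / c) * l := le_mul_of_one_le_right hA2' hl
  linarith

theorem parm_logZ (n B Om C1 l b lZ Z Lr A1 : ℝ) (hn : 1 ≤ n) (hB : 2 ≤ B) (hOm : 1 ≤ Om)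
    (hC1 : 1 ≤ C1) (hl1 : 1 ≤ l) (hl : l = log (B * Om) + 1) (hb : b = log (3 * n)) (hb0 : 0 ≤ b)
    (hlC1 : 0 ≤ log C1) (hZ : Z = 3 * n * B * Om * Lr) (hLr : Lr = C1 * Om * l) (hlZ : lZ = log Z)
    (hA1 : A1 = b + log C1 + 3) (hlOm : log Om ≤ l - 1) (hll : log l ≤ l - 1) : lZ ≤ A1 * l := by
  have p1 : 3 * n ≠ 0 := by positivity
  have p2 : B * Om ≠ 0 := by positivity
  have p3 : C1 ≠ 0 := by positivity
  have p4 : Om ≠ 0 := by positivity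
  have p5 : l ≠ 0 := by positivity
  have e1 : Z = (3 * n * (B * Om)) * (C1 * Om * l) := by
    rw [hZ, hLr]
    ring
  have h1 : lZ = b + log (B * Om) + (log C1 + log Om + log l) := by
    rw [hlZ, e1, Real.log_mul (mul_ne_zero p1 p2) (mul_ne_zero (mul_ne_zero p3 p4) p5),
      Real.log_mul p1 p2, Real.log_mul (mul_ne_zero p3 p4) p5, Real.log_mul p3 p4, hb]
  have h2 : log (B * Om) = l - 1 := by
    rw [hl]
    ring
  rw [h1, h2, hA1]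
  have h3 : 0 ≤ (b + log C1) * (l - 1) := mul_nonneg (by linarith) (by linarith)
  linarith

theorem parm_count (n : ℕ) (hn : 1 ≤ n) (d K A1 l y Lr Sr T0 C1 Om Q : ℝ) (hd : 0 ≤ d) (hK : 0 ≤ K)
    (hA1 : 0 ≤ A1) (hl : 0 ≤ l) (hT00 : 0 ≤ T0) (hT0 : T0 ≤ y * Lr) (hSr : Sr ≤ 10 * K * (A1 * l))
    (hLr0 : 0 ≤ Lr) (hOm : 0 ≤ Om) (hQ : Q = 40 * d * K * y ^ (n - 1)) (hQA : Q * A1 ≤ C1)
    (hLr : Lr = C1 * Om * l) : 4 * d * (Sr * T0 ^ (n - 1)) * Om ≤ Lr ^ n := by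
  have h1 : T0 ^ (n - 1) ≤ (y * Lr) ^ (n - 1) := pow_le_pow_left₀ hT00 hT0 _
  have h4 : 0 ≤ T0 ^ (n - 1) := pow_nonneg hT00 _
  have h5 : 0 ≤ 10 * K * (A1 * l) := by positivity
  have h2 : Sr * T0 ^ (n - 1) ≤ (10 * K * (A1 * l)) * (y * Lr) ^ (n - 1) := mul_le_mul hSr h1 h4 h5
  have h2' : 4 * d * (Sr * T0 ^ (n - 1)) ≤ 4 * d * ((10 * K * (A1 * l)) * (y * Lr) ^ (n - 1)) :=
    mul_le_mul_of_nonneg_left h2 (by positivity)
  have h3 : 4 * d * ((10 * K * (A1 * l)) * (y * Lr) ^ (n - 1)) = Q * A1 * (l * Lr ^ (n - 1)) := by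
    rw [hQ, mul_pow]
    ring
  have h6 : 0 ≤ l * Lr ^ (n - 1) := mul_nonneg hl (pow_nonneg hLr0 _)
  have h7 : Q * A1 * (l * Lr ^ (n - 1)) ≤ C1 * (l * Lr ^ (n - 1)) := mul_le_mul_of_nonneg_right hQA h6
  have h8 : C1 * (l * Lr ^ (n - 1)) * Om = Lr ^ n := by
    have e1 : Lr ^ n = Lr ^ (n - 1) * Lr := by
      rw [← pow_succ]
      congr 1
      omega
    have e2 : C1 * (l * Lr ^ (n - 1)) * Om = Lr ^ (n - 1) * (C1 * Om * l) := by ring
    rw [e1, e2, ← hLr]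
  rw [← h8]
  exact mul_le_mul_of_nonneg_right (by linarith) hOm

theorem parm_W (n C1 S1 T1 A1 Om l Lr Sr T0 lZ : ℝ) (hn : 0 ≤ n) (hC1 : 0 ≤ C1) (hS1 : 0 ≤ S1)
    (hT1 : 0 ≤ T1) (hA1 : 0 ≤ A1) (hOm : 0 ≤ Om) (hl : 1 ≤ l) (hLr0 : 0 ≤ Lr) (hLr : Lr = C1 * Om * l)
    (hSr0 : 0 ≤ Sr) (hSr : Sr ≤ S1 * l) (hT00 : 0 ≤ T0) (hT0 : T0 ≤ T1 * Om * l) (hlZ0 : 0 ≤ lZ)
    (hlZ : lZ ≤ A1 * l) :
    n * Lr * Sr ≤ n * C1 * S1 * (Om * l ^ 3) ∧ T0 * lZ ≤ T1 * A1 * (Om * l ^ 3) ∧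
      Sr * T0 / 4 * l ≤ S1 * T1 * (Om * l ^ 3) := by
  have hl0 : 0 ≤ l := by linarith
  have hl23 : l ^ 2 ≤ l ^ 3 := pow_le_pow_right₀ hl (by norm_num)
  refine ⟨?_, ?_, ?_⟩
  · have h1 : n * Lr * Sr ≤ n * Lr * (S1 * l) := mul_le_mul_of_nonneg_left hSr (mul_nonneg hn hLr0)
    have h2 : n * Lr * (S1 * l) = n * C1 * S1 * Om * l ^ 2 := by
      rw [hLr]
      ring
    have h3 : n * C1 * S1 * Om * l ^ 2 ≤ n * C1 * S1 * Om * l ^ 3 :=
      mul_le_mul_of_nonneg_left hl23 (by positivity)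
    linarith
  · have h1 : T0 * lZ ≤ (T1 * Om * l) * (A1 * l) := mul_le_mul hT0 hlZ hlZ0 (by positivity)
    have h2 : (T1 * Om * l) * (A1 * l) = T1 * A1 * Om * l ^ 2 := by ring
    have h3 : T1 * A1 * Om * l ^ 2 ≤ T1 * A1 * Om * l ^ 3 :=
      mul_le_mul_of_nonneg_left hl23 (by positivity)
    linarith
  · have h1 : Sr * T0 ≤ (S1 * l) * (T1 * Om * l) := mul_le_mul hSr hT0 hT00 (by positivity)
    have h2 : Sr * T0 * l ≤ (S1 * l) * (T1 * Om * l) * l := mul_le_mul_of_nonneg_right h1 hl0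
    have h3 : 0 ≤ Sr * T0 * l := by positivity
    have h4 : (S1 * l) * (T1 * Om * l) * l = S1 * T1 * (Om * l ^ 3) := by ring
    linarith

theorem st_PARM : Pool.Agent.Helper60.HB.ST_PARM := by
  intro n d c hn hd hcpos hc1
  obtain ⟨D1, hD1⟩ : ∃ D1 : ℝ, D1 = ((2 ^ n * d + 1 : ℕ) : ℝ) := ⟨_, rfl⟩
  have hn' : (1 : ℝ) ≤ n := by exact_mod_cast hn
  have hd' : (1 : ℝ) ≤ d := by exact_mod_cast hd
  have hD1' : 1 ≤ D1 := by
    rw [hD1]
    push_cast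
    have : (0 : ℝ) ≤ 2 ^ n * d := by positivity
    linarith
  obtain ⟨K, hK⟩ : ∃ K : ℝ, K = ((7 * (2 ^ n * d + 1) + 11 : ℕ) : ℝ) := ⟨_, rfl⟩
  have hKD : K = 7 * D1 + 11 := by
    rw [hK, hD1]
    push_cast
    ring
  have hK1 : 1 ≤ K := by
    rw [hKD]
    linarith
  obtain ⟨c0, hc0⟩ : ∃ c0 : ℕ, c0 = 16 * (7 * (2 ^ n * d + 1) + 11) * n := ⟨_, rfl⟩
  have hc0' : (c0 : ℝ) = 16 * K * n := by
    rw [hc0, hK]
    push_cast
    ring
  have hc01 : (1 : ℝ) ≤ c0 := by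
    have := parm_m1 hK1 hn'
    rw [hc0']
    linarith
  obtain ⟨y, hy⟩ : ∃ y : ℝ, y = 2 * c0 / c := ⟨_, rfl⟩
  have hy1 : 1 ≤ y := by
    rw [hy, le_div_iff₀ hcpos]
    linarith
  obtain ⟨b, hb⟩ : ∃ b : ℝ, b = log (3 * n) := ⟨_, rfl⟩
  have hb0 : 0 ≤ b := by
    rw [hb]
    exact Real.log_nonneg (by linarith)
  obtain ⟨Q, hQ⟩ : ∃ Q : ℝ, Q = 40 * d * K * y ^ (n - 1) := ⟨_, rfl⟩
  have hQ1 : 1 ≤ Q := by
    have := parm_m1 (parm_m1 hd' hK1) (one_le_pow₀ hy1 : 1 ≤ y ^ (n - 1))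
    rw [hQ]
    linarith
  obtain ⟨R, hR⟩ : ∃ R : ℝ, R = Q * (b + 5) := ⟨_, rfl⟩
  have hR1 : 1 ≤ R := by
    rw [hR]
    exact parm_m1 hQ1 (by linarith)
  obtain ⟨C1, hC1⟩ : ∃ C1 : ℝ, C1 = R ^ 2 := ⟨_, rfl⟩
  have hC11 : 1 ≤ C1 := by
    rw [hC1]
    exact one_le_pow₀ hR1
  obtain ⟨A1, hA1⟩ : ∃ A1 : ℝ, A1 = b + log C1 + 3 := ⟨_, rfl⟩
  have hlC1 : 0 ≤ log C1 := Real.log_nonneg hC11
  have hA11 : 1 ≤ A1 := by
    rw [hA1]
    linarith
  have hQA : Q * A1 ≤ C1 := by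
    have h1 : log C1 ≤ 2 * R := by
      rw [hC1, Real.log_pow]
      have := Real.log_le_sub_one_of_pos (by linarith : 0 < R)
      push_cast
      linarith
    have h2 : Q * A1 ≤ Q * (b + 3 + 2 * R) := by
      apply mul_le_mul_of_nonneg_left _ (by linarith)
      rw [hA1]
      linarith
    have h4 : 0 ≤ Q * (b + 3) * (R - 1) :=
      mul_nonneg (mul_nonneg (by linarith) (by linarith)) (by linarith)
    have h5 : R * R = Q * (b + 5) * R := by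
      nth_rewrite 1 [hR]
      rfl
    rw [hC1, pow_two, h5]
    linarith
  obtain ⟨S1, hS1⟩ : ∃ S1 : ℝ, S1 = 10 * K * A1 := ⟨_, rfl⟩
  have hS11 : 1 ≤ S1 := by
    have := parm_m1 hK1 hA11
    rw [hS1]
    linarith
  obtain ⟨T1, hT1⟩ : ∃ T1 : ℝ, T1 = 2 * c0 * C1 / c := ⟨_, rfl⟩
  have hT11 : 1 ≤ T1 := by
    have := parm_m1 hc01 hC11
    rw [hT1, le_div_iff₀ hcpos]
    linarith
  obtain ⟨A2, hA2⟩ : ∃ A2 : ℝ, A2 = log (16 * C1 * S1 / c) + 3 := ⟨_, rfl⟩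
  have hA2' : 0 ≤ log (16 * C1 * S1 / c) := by
    apply Real.log_nonneg
    have := parm_m1 hC11 hS11
    rw [le_div_iff₀ hcpos]
    linarith
  have hA20 : 0 ≤ A2 := by
    rw [hA2]
    linarith
  refine ⟨5 + S1 * T1 + 5 * n * C1 * S1 + 4 * T1 * A1 + S1 * T1 * A2 +
      D1 * (2 + 2 * T1 * A1 + 7 * n * C1 * S1), ?_, ?_⟩
  · have e1 : 0 ≤ S1 * T1 := by positivity
    have e2 : 0 ≤ 5 * n * C1 * S1 := by positivity
    have e3 : 0 ≤ 4 * T1 * A1 := by positivity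
    have e4 : 0 ≤ S1 * T1 * A2 := by positivity
    have e5 : 0 ≤ D1 * (2 + 2 * T1 * A1 + 7 * n * C1 * S1) := by positivity
    linarith
  intro Om B hOm hB
  have hBO : 1 ≤ B * Om := parm_m1 (by linarith) hOm
  obtain ⟨l, hl⟩ : ∃ l : ℝ, l = log (B * Om) + 1 := ⟨_, rfl⟩
  have hl1 : 1 ≤ l := by
    rw [hl]
    have := Real.log_nonneg hBO
    linarith
  obtain ⟨Lr, hLr⟩ : ∃ Lr : ℝ, Lr = C1 * Om * l := ⟨_, rfl⟩
  have hLr1 : 1 ≤ Lr := by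
    rw [hLr]
    exact parm_m1 (parm_m1 hC11 hOm) hl1
  obtain ⟨Z, hZ⟩ : ∃ Z : ℝ, Z = 3 * n * B * Om * Lr := ⟨_, rfl⟩
  have hZ3 : 3 ≤ Z := by
    have := parm_m1 (parm_m1 hn' hBO) hLr1
    rw [hZ]
    linarith
  have hZpos : 0 < Z := by linarith
  obtain ⟨lZ, hlZ⟩ : ∃ lZ : ℝ, lZ = log Z := ⟨_, rfl⟩
  have hlZ1 : 1 ≤ lZ := by
    rw [hlZ]
    exact parm_log3.trans (Real.log_le_log (by norm_num) hZ3)
  have hlOm : log Om ≤ l - 1 := by
    rw [hl]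
    have : log Om ≤ log (B * Om) :=
      Real.log_le_log (by linarith) (le_mul_of_one_le_left (by linarith) (by linarith))
    linarith
  have hll : log l ≤ l - 1 := Real.log_le_sub_one_of_pos (by linarith)
  have hlZA : lZ ≤ A1 * l := parm_logZ n B Om C1 l b lZ Z Lr A1 hn' hB hOm hC11 hl1 hl hb hb0 hlC1 hZ hLr
    hlZ hA1 hlOm hll
  obtain ⟨s, hs⟩ : ∃ s : ℕ, s = ⌈4 * K * lZ⌉₊ := ⟨_, rfl⟩
  have hs1 : 4 * K * lZ ≤ s := by
    rw [hs]
    exact Nat.le_ceil _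
  have hs2 : (s : ℝ) ≤ 4 * K * lZ + 1 := by
    rw [hs]
    exact (Nat.ceil_lt_add_one (by positivity)).le
  have hKl : 1 ≤ K * lZ := parm_m1 hK1 hlZ1
  have hspos' : (1 : ℝ) ≤ s := by linarith
  have hspos : 1 ≤ s := by exact_mod_cast hspos'
  obtain ⟨Js, hJ1, hJ2⟩ := parm_dy (Lr / c) (by
    rw [le_div_iff₀ hcpos]
    linarith)
  have hSc : ((2 * s : ℕ) : ℝ) = 2 * s := by push_cast; ring
  obtain ⟨Sr, hSr⟩ : ∃ Sr : ℝ, Sr = ((2 * s : ℕ) : ℝ) := ⟨_, rfl⟩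
  have hSlow : 8 * K * lZ ≤ Sr := by
    rw [hSr, hSc]
    linarith
  have hSup0 : Sr ≤ 10 * K * (A1 * l) := by
    rw [hSr, hSc]
    have h1 : 10 * K * lZ ≤ 10 * K * (A1 * l) := mul_le_mul_of_nonneg_left hlZA (by linarith)
    linarith
  have hSup : Sr ≤ S1 * l := by
    refine hSup0.trans (le_of_eq ?_)
    rw [hS1]
    ring
  have hSr2 : 2 ≤ Sr := by
    rw [hSr, hSc]
    linarith
  obtain ⟨T0, hT0⟩ : ∃ T0 : ℝ, T0 = (c0 : ℝ) * 2 ^ Js := ⟨_, rfl⟩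
  have hT0up : T0 ≤ y * Lr := by
    rw [hT0, hy]
    have : (c0 : ℝ) * 2 ^ Js ≤ c0 * (2 * (Lr / c)) := mul_le_mul_of_nonneg_left hJ2 (by linarith)
    refine this.trans (le_of_eq ?_)
    ring
  have h2J1 : (1 : ℝ) ≤ 2 ^ Js := one_le_pow₀ (by norm_num)
  have hT01 : 1 ≤ T0 := by
    rw [hT0]
    exact parm_m1 hc01 h2J1
  have hLrJ : Lr ≤ 2 ^ Js := by
    refine le_trans ?_ hJ1
    rw [le_div_iff₀ hcpos]
    exact mul_le_of_le_one_right (by linarith) hc1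
  have hT0low : 16 * K * n * Lr ≤ T0 := by
    rw [hT0, hc0']
    exact mul_le_mul_of_nonneg_left hLrJ (by positivity)
  refine ⟨Lr, 2 * s, c0, Js, hLr1, ?_, even_two_mul s, by omega, ?_, ?_, ?_⟩
  · rw [div_le_iff₀ hcpos] at hJ1
    linarith
  · exact_mod_cast hc01
  · rw [← hSr, ← hT0, le_div_iff₀ (by linarith)]
    exact parm_count n hn d K A1 l y Lr Sr T0 C1 Om Q (by linarith) (by linarith) (by linarith)
      (by linarith) (by linarith) hT0up hSup0 (by linarith) (by linarith) hQ hQA hLr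
  · intro N Lam Zc P J τ hN1 hN2 hLam0 hLam hZc hP hJ hτ
    have hZcZ : Zc = Z := by rw [hZc, hZ]
    rw [hZcZ] at hP ⊢
    rw [← hSr] at hP ⊢
    obtain ⟨u, hu⟩ : ∃ u : ℝ, u = n * Lr * Sr := ⟨_, rfl⟩
    obtain ⟨t, ht⟩ : ∃ t : ℝ, t = T0 * lZ := ⟨_, rfl⟩
    have hNpos : 0 < N := by linarith
    have hE3 : 0 < exp (3 * n * Lr * Sr) := Real.exp_pos _
    have hZp : 0 < Z ^ (c0 * 2 ^ Js) := pow_pos hZpos _
    have hPpos : 0 < P := by
      rw [hP]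
      exact mul_pos (mul_pos (by norm_num) hNpos) (mul_pos hZp hE3)
    have hnLr : 1 ≤ n * Lr := parm_m1 hn' hLr1
    have hu2 : 2 * (n * Lr) ≤ u := by
      rw [hu]
      have : n * Lr * 2 ≤ n * Lr * Sr := mul_le_mul_of_nonneg_left hSr2 (by linarith)
      linarith
    have hu1 : 1 ≤ u := by linarith
    have ht0 : 0 ≤ t := by
      rw [ht]
      exact mul_nonneg (by linarith) (by linarith)
    have hlN : log N ≤ u / 2 := by
      have h1 : log N ≤ log ((Lr + 1) ^ n) := Real.log_le_log hNpos hN2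
      rw [Real.log_pow] at h1
      have h2 := Real.log_le_sub_one_of_pos (by linarith : 0 < Lr + 1)
      have h3 : (n : ℝ) * log (Lr + 1) ≤ n * Lr := mul_le_mul_of_nonneg_left (by linarith) (by linarith)
      linarith
    have hlP : log P = log 7 + log N + t + 3 * u := by
      rw [hP, Real.log_mul (mul_pos (by norm_num) hNpos).ne' (mul_pos hZp hE3).ne',
        Real.log_mul (by norm_num) hNpos.ne', Real.log_mul hZp.ne' hE3.ne', Real.log_exp, Real.log_pow,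
        ht, hu, hT0, hlZ]
      push_cast
      ring
    have hlP2 : log P ≤ 2 + u / 2 + t + 3 * u := by
      have := parm_log7
      linarith
    have hpow : (2 : ℝ) ^ J * 2 ^ (Js - (J + 1)) * 2 = 2 ^ Js := by
      rw [← pow_add, ← pow_succ]
      congr 1
      omega
    have hτ' : (τ : ℝ) = c0 * 2 ^ (Js - (J + 1)) := by
      rw [hτ]
      push_cast
      ring
    have hτ2 : (τ : ℝ) ≤ T0 / 2 := by
      rw [hτ', hT0]
      exact parm_tau c0 (2 ^ J) (2 ^ (Js - (J + 1))) (2 ^ Js) (one_le_pow₀ (by norm_num))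
        (pow_nonneg (by norm_num) _) (by linarith) hpow
    have hZτ : 0 < Z ^ τ := pow_pos hZpos _
    have hlX : log (N * P * Z ^ τ) ≤ 2 + 3 / 2 * t + 4 * u := by
      rw [Real.log_mul (mul_pos hNpos hPpos).ne' hZτ.ne', Real.log_mul hNpos.ne' hPpos.ne',
        Real.log_pow, ← hlZ]
      have h1 : (τ : ℝ) * lZ ≤ T0 / 2 * lZ := mul_le_mul_of_nonneg_right hτ2 (by linarith)
      have h2 : T0 / 2 * lZ = t / 2 := by
        rw [ht]
        ring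
      linarith
    have hSdiv : 2 * s / 2 = s := Nat.mul_div_cancel_left s (by norm_num)
    rw [hSdiv]
    have hG : ((2 ^ J * s * τ : ℕ) : ℝ) = Sr * T0 / 4 := by
      push_cast
      rw [hτ', hSr, hSc, hT0, ← hpow]
      ring
    have hg0 : 0 ≤ Sr * T0 / 4 := by positivity
    have hg : K * t + 2 * K * u ≤ Sr * T0 / 4 := by
      rw [ht, hu]
      exact parm_g K n Lr lZ T0 Sr (by linarith) (by linarith) hSlow hT0low
    have e7 : exp (7 * n * Lr * Sr) = exp (7 * u) := by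
      congr 1
      rw [hu]
      ring
    have e3 : 3 * (n : ℝ) * Lr * Sr = 3 * u := by
      rw [hu]
      ring
    have e1 : exp (n * Lr * Sr) = exp u := by rw [hu]
    rw [e7, e3, e1, ← hD1]
    have hX : 0 < N * P * Z ^ τ := mul_pos (mul_pos hNpos hPpos) hZτ
    have hfirst := parm_first D1 (N * P * Z ^ τ) u t (Sr * T0 / 4) K (2 ^ J * s * τ) hX hG hu1 ht0 hD1' hKD
      hlX hg
    have hV : 0 < 8 * (2 ^ J * Sr) := by positivity
    have hlV : log (8 * (2 ^ J * Sr)) ≤ A2 * l := parm_V J Js Lr c S1 l Sr C1 Om A2 (by omega) hJ2 hcpos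
      (by linarith) hSup hLr hC11 hS11 hOm hl1 hlOm hll hA2 hA2'
    have hW1 : 1 ≤ Om * l ^ 3 := parm_m1 hOm (one_le_pow₀ hl1)
    have hT0O : T0 ≤ T1 * Om * l := by
      refine hT0up.trans (le_of_eq ?_)
      rw [hT1, hy, hLr]
      ring
    obtain ⟨huW, htW, hgW⟩ := parm_W n C1 S1 T1 A1 Om l Lr Sr T0 lZ (by linarith) (by linarith)
      (by linarith) (by linarith) (by linarith) (by linarith) hl1 (by linarith) hLr (by linarith) hSup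
      (by linarith) hT0O (by linarith) hlZA
    rw [← hu] at huW
    rw [← ht] at htW
    have hsum := parm_sum n C1 S1 T1 A1 A2 D1 _ (Om * l ^ 3) l (Sr * T0 / 4) u t (log N) (log P)
      (log (N * P * Z ^ τ)) lZ τ T0 hW1 hD1' hA20 hl1 hg0 hlZ1 hT01 ht huW htW hgW hlN hlP2 hτ2 hlX rfl
    have hL : Lam ≤ exp (-((5 + S1 * T1 + 5 * n * C1 * S1 + 4 * T1 * A1 + S1 * T1 * A2 +
      D1 * (2 + 2 * T1 * A1 + 7 * n * C1 * S1)) * (Om * l ^ 3))) := by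
      refine hLam.le.trans (le_of_eq ?_)
      congr 1
      rw [← hl]
      ring
    rw [hlZ] at hsum
    have hsecond := parm_second D1 (N * P * Z ^ τ) u t (Sr * T0 / 4) (A2 * l) N P Z (8 * (2 ^ J * Sr)) Lam _
      (2 ^ J * s * τ) τ hN1 hPpos (by linarith) hV hG hLam0 hL hlV hg0 hsum
    have hE : 0 < exp (-D1 * (log (N * P * Z ^ τ) + 3 * u)) := Real.exp_pos _
    linarith

end Pool.Agent.Helper83.HB
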